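import Pool.Agent.Helper29K.NF
import Pool.Agent.H30GR.Low5

/-!
# Almost all curves with squarefree discriminant: after a twist by a bounded integer, the rank and the
# 2-torsion of the Tate-Shafarevich group over all admissible number fields

`E : y ^ 2 = x ^ 3 + A x + B` is in the family (`InFamily`) if `A > 0`, `A` and `B` are `3` modulo `4`, the cubic
has no zero modulo `3` and `4 A ^ 3 + 27 B ^ 2` is squarefree.  A number field `K` is admissible for a curve
(`Admissible`) if `K/ℚ` is Galois, `[K : ℚ]` is a power of two, `2` is unramified in `K`, the primes which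
are ramified in `K` do not divide `4 A ^ 3 + 27 B ^ 2`, and the odd primes which divide `A` and `B` (there
are none for the curves of the family) split completely in `K`.

Theorem. Let `K₀` be a number field, Galois over `ℚ` of degree a power of two, unramified at `2`. The
curves of the family for which `K₀` is admissible are a positive proportion of all elliptic curves over
`ℚ`. For every `ε > 0` there is `D` such that for all large `X` all but at most a proportion `ε` of these
curves `E` of height at most `X` have a quadratic twist `E' = E^(d)`, `1 ≤ d ≤ D`, `d` squarefree,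
composed of primes `p ≡ 1` modulo `8` which divide `B` and split completely in `K₀`, with the
following properties. `K₀` is admissible for `E'`, and for ALL number fields `K` which are admissible
for `E'`:

* `∏ #E'(𝔽_p)[2] ≤ 2 ^ (rank E'(K)) * #Ш(E'/K)[2] ≤ (∏ #E'(𝔽_p)[2]) ^ ([K : ℚ] - 1)`, the products over the
  primes `p` which are ramified in `K`; the middle term is `#Sel_2(E'/K)`;
* if `K` is quadratic then `2 ^ (rank E'(K)) * #Ш(E'/K)[2] = ∏_{p ramified in K} #E'(𝔽_p)[2]`;
* if `E'(𝔽_p)[2] = 0` for all the ramified primes, then `E'(K) = 0`, `Sel_2(E'/K) = 0` and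
  `Ш(E'/K)[2^∞] = 0`, and the same holds for the twists of `E'` over `K` by ALL the squarefree integers `δ`,
  not `3` modulo `4`, with `E'(𝔽_p)[2] = 0` for the odd primes `p ∣ δ`.

Proof. The deterministic part is in `H30GR`, `H30GS`: if `S` is a set of primes `Q ≡ 1` modulo `8`
with `Q ∣ B`, `-A` not a square modulo `Q`, and `E` is not bad for `S`, there is `d = ∏_{Q ∈ J} Q`,
`J ⊆ S`. The number of the pairs which are bad for `S` is `O(2^{-|S|} ∏_{Q ∈ S} Q^{-2} X^5)` with a
constant which does not depend on `S`. We take a large finite set of primes `Q ≡ 1` modulo `8` which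
split completely in `K₀`, with `Λ = ∑ 1/Q` large (the sum over all these primes diverges), and for `S`
the set `S(E)` of ALL the primes of this set with `Q ∣ B`, `-A` not a square. The sum of the bound over all
`S` and all the residues of `A` modulo `Q ∈ S` is `O(e^{Λ/4} X^5)`, while a pair `E` which is bad for
`S(E)` is counted at least `2^{|S(E)|}` times; and usually `S(E)` has at least `(2/5) Λ` elements.
-/

set_option autoImplicit false

open NumberField Filter

namespace Pool.Agent.Results.MP_f50388_nt.AlmostAllUpToSmallTwist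

open Pool.Agent.H30EV (Curves Ramified SplitsCompletely curve Pts twist Trivial TwistFor FieldFor
  curves_fin)
open Pool.Agent.H30GR
open Pool.Agent.Helper29K (InFamily)

/-- The conclusions for the curve `q = (A, B)` and the number field `K`. `Sha` and `Sel2` are the
Tate-Shafarevich group and the 2-Selmer group, `Pts (curve K q) K = E(K)`, and `ramProd K q` is the product
of the `#E(𝔽_p)[2]` over the primes which are ramified in `K`. -/
structure Conclusion (K : Type) [Field K] [NumberField K] (q : ℤ × ℤ) : Prop where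
  quadratic : Module.finrank ℚ K = 2 →
    2 ^ Module.finrank ℤ (Pts (curve K q) K) * Nat.card {x : Sha (curve K q) // 2 • x = 0} =
      ramProd K q
  lower : ramProd K q ≤
    2 ^ Module.finrank ℤ (Pts (curve K q) K) * Nat.card {x : Sha (curve K q) // 2 • x = 0}
  upper : 2 ^ Module.finrank ℤ (Pts (curve K q) K) * Nat.card {x : Sha (curve K q) // 2 • x = 0} ≤
    ramProd K q ^ (Module.finrank ℚ K - 1)
  selmer : Nat.card (Sel2 (curve K q)) =
    2 ^ Module.finrank ℤ (Pts (curve K q) K) * Nat.card {x : Sha (curve K q) // 2 • x = 0}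

/-- The curve `q = (A, B)` is controlled over all admissible fields: the conclusions hold, and for the
fields for which the ramified primes `p` satisfy `E(𝔽_p)[2] = 0` (`FieldFor`) the groups `E(K)`,
`Sel_2(E/K)`, `Ш(E/K)[2^∞]` are zero for all the admissible twists (`TwistFor`; `δ = 1` is one of them if
`A`, `B` are `3` modulo `4`). -/
structure Controlled (q : ℤ × ℤ) : Prop where
  growth : ∀ (K : Type) [Field K] [NumberField K], Admissible K q → Conclusion K q
  trivial : ∀ (K : Type) [Field K] [NumberField K], FieldFor K q →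
    Trivial K q ∧ ∀ δ : ℤ, TwistFor q δ → Trivial K (twist q δ)

/-- The curve `q = (A, B)` has a good twist by an integer `d ≤ D`, composed of primes which are `1` modulo
`8`, divide `B` and split completely in `K₀`. -/
def HasSmallTwist (K₀ : Type) [Field K₀] [NumberField K₀] (D : ℕ) (q : ℤ × ℤ) : Prop :=
  ∃ d : ℕ, 1 ≤ d ∧ d ≤ D ∧ Squarefree d ∧
    (∀ p : ℕ, p.Prime → p ∣ d → p % 8 = 1 ∧ (p : ℤ) ∣ q.2 ∧ SplitsCompletely K₀ p) ∧
    Admissible K₀ (twist q d) ∧ Controlled (twist q d)

theorem sqf_prod {J : Finset ℕ} (hJ : ∀ Q ∈ J, Q.Prime) : Squarefree (∏ Q ∈ J, Q) := by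
  classical
  induction J using Finset.induction_on with
  | empty => simp
  | insert a s ha ih =>
    rw [Finset.prod_insert ha]
    have h1 : ∀ Q ∈ s, Q.Prime := fun Q hQ => hJ Q (Finset.mem_insert_of_mem hQ)
    have hap := hJ a (Finset.mem_insert_self _ _)
    refine (Nat.squarefree_mul ?_).2 ⟨hap.prime.squarefree, ih h1⟩
    rw [hap.coprime_iff_not_dvd]
    exact fun h => ha (Pool.Agent.Helper29K.prime_dvd_prod' h1 hap h)

theorem controlled_of {A B : ℤ} (hG : GSelR A B) : Controlled (A, B) := by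
  have ha4 := hG.a4
  have hb4 := hG.b4
  have hpos := hG.pos
  have hAB : 4 * A ^ 3 + 27 * B ^ 2 ≠ 0 := by
    have : 0 < 4 * A ^ 3 + 27 * B ^ 2 := by positivity
    exact this.ne'
  have hnice := Pool.Agent.H30EV.nice_one hAB (Pool.Agent.Helper29K.gsel_of hG)
  refine ⟨fun K _ _ hK => ?_, fun K _ _ hK => ⟨?_, fun δ hδ => hnice K hK δ hδ⟩⟩
  · have hg := growth_of low hG hK
    refine ⟨fun h4 => ?_, ?_, ?_, hg.formula⟩
    · rw [← hg.formula]
      have h5 := hg.up
      rw [h4, pow_one] at h5
      exact le_antisymm h5 hg.low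
    · rw [← hg.formula]
      exact hg.low
    · rw [← hg.formula]
      exact hg.up
  · have h3 := hnice K hK 1 ⟨squarefree_one, fun p hp _ hpd => ?_, Or.inl ⟨ha4, hb4, by norm_num⟩⟩
    · have e1 : twist (A, B) 1 = (A, B) := by
        simp [twist]
      rwa [e1] at h3
    · exfalso
      have : p ∣ 1 := by exact_mod_cast hpd
      exact hp.one_lt.ne' (Nat.dvd_one.1 this)

/-- Let `K₀` be a number field, Galois over `ℚ` of degree a power of two, unramified at `2`. The curves of
the family for which `K₀` is admissible have a positive proportion, and for every `ε > 0` there is `D`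
such that for all large `X` all but at most a proportion `ε` of these curves of height at most `X` have a
good twist by an integer `d ≤ D`. -/
theorem result (K₀ : Type) [Field K₀] [NumberField K₀] (hgal : IsGalois ℚ K₀)
    (hdeg : ∃ n : ℕ, Module.finrank ℚ K₀ = 2 ^ n) (htwo : ¬ Ramified K₀ 2) :
    (∃ c : ℝ, 0 < c ∧ ∀ᶠ X : ℕ in atTop, 0 < (Curves X).ncard ∧
      c * ((Curves X).ncard : ℝ) ≤
        ({q ∈ Curves X | InFamily q ∧ Admissible K₀ q}.ncard : ℝ)) ∧
    ∀ ε : ℝ, 0 < ε → ∃ D : ℕ, ∀ᶠ X : ℕ in atTop, (Curves X).Finite ∧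
      0 < {q ∈ Curves X | InFamily q ∧ Admissible K₀ q}.ncard ∧
      ({q ∈ Curves X | (InFamily q ∧ Admissible K₀ q) ∧ ¬ HasSmallTwist K₀ D q}.ncard : ℝ) ≤
        ε * ({q ∈ Curves X | InFamily q ∧ Admissible K₀ q}.ncard : ℝ) := by
  classical
  haveI := hgal
  -- the ramified primes
  obtain ⟨T₀, hT₀, hram⟩ : ∃ T₀ : Finset ℤ, (∀ P ∈ T₀, Pool.Agent.N922.PQ.IsPr P) ∧
      ∀ p : ℕ, p.Prime → Ramified K₀ p → (p : ℤ) ∈ T₀ := by
    refine ⟨(ram_fin K₀).toFinset.image fun p : ℕ => (p : ℤ), fun P hP => ?_, fun p hp hr => ?_⟩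
    · obtain ⟨p, hp, rfl⟩ := Finset.mem_image.1 hP
      exact Pool.Agent.H30EV.isPr_nat (((ram_fin K₀).mem_toFinset).1 hp).1
    · exact Finset.mem_image.2 ⟨p, ((ram_fin K₀).mem_toFinset).2 ⟨hp, hr⟩, rfl⟩
  have hsub : ∀ X : ℕ, {q ∈ Curves X | InFamily q ∧ ∀ P ∈ T₀, P ∈ Pool.Agent.H30EV.irr q.1 q.2} ⊆
      {q ∈ Curves X | InFamily q ∧ Admissible K₀ q} := by
    rintro X q ⟨hq, hF, hirr⟩
    exact ⟨hq, hF, Pool.Agent.Helper29K.adm_fam hgal hdeg htwo hF fun p hp hr =>
      Pool.Agent.Helper29K.irr_good (hirr p (hram p hp hr))⟩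
  have hmono : ∀ X : ℕ, ({q ∈ Curves X | InFamily q ∧
      ∀ P ∈ T₀, P ∈ Pool.Agent.H30EV.irr q.1 q.2}.ncard : ℝ) ≤
      ({q ∈ Curves X | InFamily q ∧ Admissible K₀ q}.ncard : ℝ) := by
    intro X
    exact_mod_cast Set.ncard_le_ncard (hsub X) ((curves_fin X).subset fun q hq => hq.1)
  constructor
  · obtain ⟨c, hc, h⟩ := Pool.Agent.Helper29K.fam_prop T₀ hT₀
    refine ⟨c, hc, ?_⟩
    filter_upwards [h, eventually_ge_atTop 27] with X hX hX'
    exact ⟨Pool.Agent.H30EV.curves_pos hX', hX.trans (hmono X)⟩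
  · intro ε hε
    obtain ⟨κ, hLB⟩ := Pool.Agent.N922.PQ.lb
    obtain ⟨c, X₀, hc, hlow⟩ := Pool.Agent.Helper29K.fam_low T₀ hT₀
    obtain ⟨γ, g, δ, hG, hgd⟩ := Pool.Agent.N40.PQ.gen K₀
    have hfinδ : {p : ℕ | (p : ℤ) ∣ δ}.Finite := by
      refine (Set.finite_Iic δ.natAbs).subset fun p hp => ?_
      have h1 : (p : ℤ) ∣ δ := hp
      exact Nat.le_of_dvd (Int.natAbs_pos.2 hG.ne) (Int.natCast_dvd.1 h1)
    have hdiv := Pool.Agent.Helper29K.spl_div K₀ γ g δ hG _ hfinδ
    obtain ⟨D, hD⟩ := Pool.Agent.Helper29K.gmc κ (P := Pool.Agent.Helper29K.SP g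
      {p : ℕ | (p : ℤ) ∣ δ}) (fun Q hQ => ⟨hQ.1, hQ.2.1⟩) hdiv (ε := ε * c / 1024) (by positivity)
    refine ⟨D, ?_⟩
    have htr := Pool.Agent.Helper29K.transfer (Fm := fun q => InFamily q ∧ Admissible K₀ q)
      (Good := HasSmallTwist K₀ D) hc (fun q hq => hq.1.pos) (by
        intro X hX H hH
        exact (hlow X hX H hH).trans (hmono H)) (η := ε * c / 1024) (by positivity)
      (fun X => {p : ℤ × ℤ | p ∈ Pool.Agent.Helper29K.Bx X ∧
        ¬ Pool.Agent.Helper29K.GoodAtP κ D X (Pool.Agent.Helper29K.SP g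
          {p : ℕ | (p : ℤ) ∣ δ}) p}) hD (by
        rintro X q ⟨hF, hA⟩ hq hng
        refine ⟨hq, fun hGA => hng ?_⟩
        obtain ⟨J, hJ8, hJP, hJ, hJD, h1, -⟩ := Pool.Agent.Helper29K.gtwist hLB hF hq hGA
        obtain ⟨h2, h3⟩ := Pool.Agent.Helper29K.adm_tw hG hF hA hJP
        have hJp : ∀ Q ∈ J, Q.Prime := fun Q hQ => (hJ8 Q hQ).1
        refine ⟨∏ Q ∈ J, Q, Finset.prod_pos fun Q hQ => (hJp Q hQ).pos, hJD, sqf_prod hJp,
          fun p hp hpd => ?_, h3, controlled_of h1⟩
        have h4 := Pool.Agent.Helper29K.prime_dvd_prod' hJp hp hpd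
        exact ⟨(hJ8 p h4).2, (hJ p h4).1, h2 p hp hpd⟩)
    filter_upwards [htr] with X hX
    refine ⟨curves_fin X, hX.1, hX.2.trans (le_of_eq ?_)⟩
    field_simp

end Pool.Agent.Results.MP_f50388_nt.AlmostAllUpToSmallTwist
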