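import Pool.Agent.Helper29J.Conv

/-!
# The 2-primary descent for odd hyperelliptic curves over number fields

Stoll's conjecture says that the rational points of a curve `C` over a number field `F` are dense
in the Brauer-Manin set of `C`, where the archimedean components are taken in the sets of
connected components. The points of the Brauer-Manin set survive all descents by coverings which are
pulled back from multiplications on the Jacobian.

Theorem. Let `F` be a number field and `g ≥ 1`. For a positive proportion of the monic polynomials
`f` of degree `2 g + 1` over the ring of integers of `F`, ordered by height, the curve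
`C : y ^ 2 = f(x)` has the following property: `C(F)` consists of the point at infinity, and
the components above two and infinity of every adelic point which survives the 2-primary descent are
those of this point.

The proof. For a positive proportion of the `f` in a given class modulo `8` the 2-Selmer group of the
Jacobian `J` is trivial. So the `2 ^ k`-Selmer sets of `C` are trivial, and the points over the
completion `F_v` which survive are those whose class in `J(F_v)` is infinitely divisible by two.
Let `v` be a prime above two. In `J` over the separable closure of `F_v` the subgroups generated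
by the points `P` with `|x(P)| > R` are shrinking under multiplication by two; the subgroup for `R = 1`
contains a positive multiple of every element of `J(F_v)`; and so a point with `|x(P)| > 1` whose
class is infinitely divisible by two would be in all these subgroups, which is impossible by a
computation with functions having poles only at infinity. If `x(P)` is integral and the class
of `P` is divisible by two, then `x(P) - x` is a square modulo `f`, and for a suitable class of `f`
modulo the squares of the primes above two, in which `f` is irreducible modulo `v`, this is excluded.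
-/

set_option autoImplicit false

open Polynomial NumberField

namespace Pool.Agent.Results.MP_ab3ecb_nt.OddHyperellipticCurves

open Pool.Agent.Helper29J.Defs

theorem result (F : Type) [Field F] [NumberField F] (g : ℕ) (hg : 1 ≤ g) :
    ∃ c : ℝ, 0 < c ∧ ∃ B₀ : ℕ, ∀ B ≥ B₀, {f : (𝓞 F)[X] | InBox g B f}.Finite ∧
      c * ({f : (𝓞 F)[X] | InBox g B f}.ncard : ℝ) ≤
        ({f : (𝓞 F)[X] | InBox g B f ∧ Irreducible (overF f) ∧ IsMinimal g f ∧
          OnlyInfinitySurvives (overF f)}.ncard : ℝ) := by
  obtain ⟨f₁, hf₁, c, hc, B₀, hB⟩ := Pool.Agent.Helper29J.many g F hg
  have hbox : ∀ (B : ℕ) (f : (𝓞 F)[X]), Pool.Agent.N783.PF.Ht g B f ↔ InBox g B f :=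
    fun B f => ⟨fun h => ⟨h.mon, h.deg, h.tr, h.ht⟩, fun h => ⟨h.1, h.2, h.3, h.4⟩⟩
  refine ⟨c, hc, B₀, fun B hBB => ?_⟩
  obtain ⟨h1, h2⟩ := hB B hBB
  have e : {f : (𝓞 F)[X] | Pool.Agent.N783.PF.Ht g B f} = {f : (𝓞 F)[X] | InBox g B f} :=
    Set.ext fun f => hbox B f
  rw [e] at h1 h2
  refine ⟨h1, h2.trans ?_⟩
  have h3 : {f : (𝓞 F)[X] | InBox g B f ∧ Irreducible (overF f) ∧ IsMinimal g f ∧
      OnlyInfinitySurvives (overF f)}.Finite := h1.subset fun f hf => hf.1
  refine Nat.cast_le.2 (Set.ncard_le_ncard ?_ h3)
  rintro f ⟨hht, hirr, hsel, hmin, h8⟩
  exact ⟨(hbox B f).1 hht, hirr, hmin,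
    Pool.Agent.Helper29J.core2 hg hht.mon hht.deg hirr hsel h8 hf₁⟩

end Pool.Agent.Results.MP_ab3ecb_nt.OddHyperellipticCurves
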